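import Mathlib

/-!
# The second numerical index of an `ℓ₂`-sum of two spaces
-/

set_option autoImplicit false

namespace Pool.Agent.Results.MP_01d095_an.LtwoSum

open Set

section defs

variable (X : Type*) [NormedAddCommGroup X] [NormedSpace ℝ X]

/-- `Π(X)` -/
def PiSet : Set (X × (X →L[ℝ] ℝ)) := {p | ‖p.1‖ = 1 ∧ ‖p.2‖ = 1 ∧ p.2 p.1 = 1}

variable {X}

/-- the numerical radius -/
noncomputable def v (T : X →L[ℝ] X) : ℝ := sSup {r | ∃ p ∈ PiSet X, r = |p.2 (T p.1)|}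

variable (X)

/-- the skew-hermitian operators -/
def Z : Set (X →L[ℝ] X) := {S | v S = 0}

variable {X}

/-- the quotient norm `‖T + Z(X)‖` -/
noncomputable def qnorm (T : X →L[ℝ] X) : ℝ := sInf {r | ∃ S ∈ Z X, r = ‖T - S‖}

variable (X)

/-- the second numerical index -/
noncomputable def secondIndex : ℝ := sSup {k | 0 ≤ k ∧ ∀ T : X →L[ℝ] X, k * qnorm T ≤ v T}

end defs

section lemmas

variable {X : Type*} [NormedAddCommGroup X] [NormedSpace ℝ X]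

lemma bound (T : X →L[ℝ] X) {p : X × (X →L[ℝ] ℝ)} (hp : p ∈ PiSet X) :
    |p.2 (T p.1)| ≤ ‖T‖ := by
  obtain ⟨h1, h2, -⟩ := hp
  calc |p.2 (T p.1)| = ‖p.2 (T p.1)‖ := (Real.norm_eq_abs _).symm
    _ ≤ ‖p.2‖ * ‖T p.1‖ := p.2.le_opNorm _
    _ ≤ ‖p.2‖ * (‖T‖ * ‖p.1‖) := mul_le_mul_of_nonneg_left (T.le_opNorm _) (norm_nonneg _)
    _ = ‖T‖ := by rw [h1, h2]; ring

lemma bdd (T : X →L[ℝ] X) : BddAbove {r | ∃ p ∈ PiSet X, r = |p.2 (T p.1)|} :=
  ⟨‖T‖, by rintro _ ⟨p, hp, rfl⟩; exact bound T hp⟩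

lemma le_v (T : X →L[ℝ] X) {p : X × (X →L[ℝ] ℝ)} (hp : p ∈ PiSet X) : |p.2 (T p.1)| ≤ v T :=
  le_csSup (bdd T) ⟨p, hp, rfl⟩

lemma v_nonneg (T : X →L[ℝ] X) : 0 ≤ v T := by
  refine Real.sSup_nonneg ?_
  rintro _ ⟨p, -, rfl⟩
  exact abs_nonneg _

lemma v_le (T : X →L[ℝ] X) {c : ℝ} (hc : 0 ≤ c) (h : ∀ p ∈ PiSet X, |p.2 (T p.1)| ≤ c) :
    v T ≤ c := by
  refine Real.sSup_le ?_ hc
  rintro _ ⟨p, hp, rfl⟩
  exact h p hp

lemma zero_mem_Z : (0 : X →L[ℝ] X) ∈ Z X := by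
  refine le_antisymm (v_le 0 le_rfl (fun p _ => ?_)) (v_nonneg _)
  simp

lemma piSet_nonempty [Nontrivial X] : (PiSet X).Nonempty := by
  obtain ⟨x, hx⟩ := exists_ne (0 : X)
  have hx' : ‖x‖ ≠ 0 := norm_ne_zero_iff.2 hx
  obtain ⟨g, hg, hgx⟩ := exists_dual_vector ℝ x hx'
  refine ⟨(‖x‖⁻¹ • x, g), ?_, hg, ?_⟩
  · rw [norm_smul, norm_inv, norm_norm, inv_mul_cancel₀ hx']
  · change g (‖x‖⁻¹ • x) = 1
    rw [map_smul, hgx, smul_eq_mul]
    exact inv_mul_cancel₀ hx'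

/-- The second numerical index is attained as a supremum of a bounded set. -/
lemma bdd_index [Nontrivial X] :
    BddAbove {k : ℝ | 0 ≤ k ∧ ∀ T : X →L[ℝ] X, k * qnorm T ≤ v T} := by
  obtain ⟨p, hp⟩ := piSet_nonempty (X := X)
  refine ⟨1, ?_⟩
  rintro k ⟨hk, h⟩
  have h1 := h (ContinuousLinearMap.id ℝ X)
  have h2 : v (ContinuousLinearMap.id ℝ X) ≤ 1 := by
    refine v_le _ zero_le_one (fun q hq => (bound _ hq).trans ?_)
    exact ContinuousLinearMap.norm_id_le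
  have h3 : 1 ≤ qnorm (ContinuousLinearMap.id ℝ X) := by
    refine le_csInf ⟨_, 0, zero_mem_Z, rfl⟩ ?_
    rintro _ ⟨S, hS, rfl⟩
    have h4 := bound (ContinuousLinearMap.id ℝ X - S) hp
    have h5 : p.2 (S p.1) = 0 := by
      have := le_v S hp
      rw [show v S = 0 from hS] at this
      exact abs_eq_zero.1 (le_antisymm this (abs_nonneg _))
    have h6 : p.2 ((ContinuousLinearMap.id ℝ X - S) p.1) = 1 := by
      rw [ContinuousLinearMap.sub_apply, map_sub, h5, sub_zero]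
      exact hp.2.2
    rw [h6, abs_one] at h4
    exact h4
  nlinarith

/-- The comparison: `Y` is a norm-one complemented summand of `X` such that the norm of `X` does
not change when the `Y`-component is replaced by a vector of the same norm. -/
lemma index_le {Y : Type*} [NormedAddCommGroup Y] [NormedSpace ℝ Y] [Nontrivial Y]
    (ι : Y →L[ℝ] X) (P : X →L[ℝ] Y) (hι : ∀ y, ‖ι y‖ = ‖y‖) (hPι : ∀ y, P (ι y) = y)
    (hP : ∀ x, ‖P x‖ ≤ ‖x‖)
    (hrot : ∀ (x : X) (a : Y), ‖a‖ = ‖P x‖ → ‖ι a + (x - ι (P x))‖ = ‖x‖) :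
    secondIndex X ≤ secondIndex Y := by
  have hPn : ‖P‖ ≤ 1 := P.opNorm_le_bound zero_le_one (fun x => by rw [one_mul]; exact hP x)
  have hιn : ‖ι‖ ≤ 1 := ι.opNorm_le_bound zero_le_one (fun y => by rw [one_mul, hι])
  -- numerical radius of the extended operator
  have hv : ∀ T : Y →L[ℝ] Y, v (ι ∘L T ∘L P) ≤ v T := by
    intro T
    refine v_le _ (v_nonneg T) ?_
    rintro ⟨x, g⟩ ⟨hx, hg, hgx⟩
    simp only at hx hg hgx
    change |g (ι (T (P x)))| ≤ v T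
    set y := P x with hy
    set φ : Y →L[ℝ] ℝ := g ∘L ι with hφ
    have hφn : ‖φ‖ ≤ 1 := by
      calc ‖φ‖ ≤ ‖g‖ * ‖ι‖ := ContinuousLinearMap.opNorm_comp_le _ _
        _ ≤ 1 * 1 := mul_le_mul hg.le hιn (norm_nonneg _) zero_le_one
        _ = 1 := one_mul 1
    have hyn : ‖y‖ ≤ 1 := by rw [← hx]; exact hP x
    -- `φ` attains its norm at `y`
    have hatt : ∀ a : Y, ‖a‖ = ‖y‖ → φ a ≤ φ y := by
      intro a ha
      have h1 : g (ι a + (x - ι y)) ≤ 1 := by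
        calc g (ι a + (x - ι y)) ≤ ‖g (ι a + (x - ι y))‖ := Real.le_norm_self _
          _ ≤ ‖g‖ * ‖ι a + (x - ι y)‖ := g.le_opNorm _
          _ = 1 := by rw [hrot x a ha, hx, hg, one_mul]
      rw [map_add, map_sub, hgx] at h1
      change g (ι a) ≤ g (ι y)
      linarith
    by_cases hy0 : ‖y‖ = 0
    · have : y = 0 := norm_eq_zero.1 hy0
      rw [this, map_zero, map_zero, map_zero, abs_zero]
      exact v_nonneg T
    have hy0' : 0 < ‖y‖ := lt_of_le_of_ne (norm_nonneg _) (Ne.symm hy0)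
    have hle : ∀ a : Y, φ a * ‖y‖ ≤ φ y * ‖a‖ := by
      intro a
      by_cases ha : ‖a‖ = 0
      · have : a = 0 := norm_eq_zero.1 ha
        rw [this, map_zero, zero_mul, norm_zero, mul_zero]
      · have ha' : 0 < ‖a‖ := lt_of_le_of_ne (norm_nonneg _) (Ne.symm ha)
        have h1 := hatt ((‖y‖ / ‖a‖) • a) (by
          rw [norm_smul, norm_div, norm_norm, norm_norm, div_mul_cancel₀ _ ha])
        rw [map_smul, smul_eq_mul, div_mul_eq_mul_div, div_le_iff₀ ha'] at h1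
        linarith
    have hφy : 0 ≤ φ y := by
      have h1 := hle (-y)
      rw [map_neg, norm_neg] at h1
      nlinarith
    have hnorm : ‖φ‖ * ‖y‖ ≤ φ y := by
      have h1 : ‖φ‖ ≤ φ y / ‖y‖ := by
        refine φ.opNorm_le_bound (div_nonneg hφy hy0'.le) (fun a => ?_)
        rw [Real.norm_eq_abs, div_mul_eq_mul_div, le_div_iff₀ hy0']
        rcases abs_cases (φ a) with ⟨h, -⟩ | ⟨h, -⟩
        · rw [h]; exact hle a
        · rw [h]
          have := hle (-a)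
          rwa [map_neg, norm_neg] at this
      rwa [le_div_iff₀ hy0'] at h1
    have hnorm' : φ y ≤ ‖φ‖ * ‖y‖ := (Real.le_norm_self _).trans (φ.le_opNorm _)
    by_cases hφ0 : ‖φ‖ = 0
    · have h0 : φ = 0 := norm_eq_zero.1 hφ0
      have h1 : g (ι (T y)) = 0 := by
        change φ (T y) = 0
        rw [h0]
        rfl
      rw [h1, abs_zero]
      exact v_nonneg T
    have hφ0' : 0 < ‖φ‖ := lt_of_le_of_ne (norm_nonneg _) (Ne.symm hφ0)
    have hmem : ((‖y‖⁻¹ • y, ‖φ‖⁻¹ • φ) : Y × (Y →L[ℝ] ℝ)) ∈ PiSet Y := by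
      refine ⟨?_, ?_, ?_⟩
      · change ‖‖y‖⁻¹ • y‖ = 1
        rw [norm_smul, norm_inv, norm_norm, inv_mul_cancel₀ hy0]
      · change ‖‖φ‖⁻¹ • φ‖ = 1
        rw [norm_smul, norm_inv, norm_norm, inv_mul_cancel₀ hφ0]
      · change (‖φ‖⁻¹ • φ) (‖y‖⁻¹ • y) = 1
        rw [ContinuousLinearMap.smul_apply, map_smul, smul_eq_mul, smul_eq_mul,
          le_antisymm hnorm' hnorm]
        field_simp
    have h2 := le_v T hmem
    have h3 : ((‖φ‖⁻¹ • φ) (T (‖y‖⁻¹ • y))) = ‖φ‖⁻¹ * ‖y‖⁻¹ * g (ι (T y)) := by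
      rw [ContinuousLinearMap.smul_apply, map_smul, map_smul, smul_eq_mul, smul_eq_mul]
      change ‖φ‖⁻¹ * (‖y‖⁻¹ * g (ι (T y))) = _
      ring
    simp only at h2
    rw [h3, abs_mul, abs_mul, abs_inv, abs_inv, abs_norm, abs_norm] at h2
    have h4 : |g (ι (T y))| = ‖φ‖ * ‖y‖ * (‖φ‖⁻¹ * ‖y‖⁻¹ * |g (ι (T y))|) := by
      field_simp
    rw [h4]
    calc ‖φ‖ * ‖y‖ * (‖φ‖⁻¹ * ‖y‖⁻¹ * |g (ι (T y))|) ≤ ‖φ‖ * ‖y‖ * v T :=
          mul_le_mul_of_nonneg_left h2 (by positivity)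
      _ ≤ 1 * v T := mul_le_mul_of_nonneg_right
          (mul_le_one₀ hφn (norm_nonneg _) hyn) (v_nonneg T)
      _ = v T := one_mul _
  -- compressions of skew-hermitian operators
  have hZ : ∀ S ∈ Z X, P ∘L S ∘L ι ∈ Z Y := by
    intro S hS
    refine le_antisymm (v_le _ le_rfl ?_) (v_nonneg _)
    rintro ⟨y, φ⟩ ⟨hy, hφ, hφy⟩
    simp only at hy hφ hφy
    have hg1 : ‖φ ∘L P‖ ≤ 1 := by
      calc ‖φ ∘L P‖ ≤ ‖φ‖ * ‖P‖ := ContinuousLinearMap.opNorm_comp_le _ _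
        _ ≤ 1 * 1 := mul_le_mul hφ.le hPn (norm_nonneg _) zero_le_one
        _ = 1 := one_mul 1
    have hg2 : (φ ∘L P) (ι y) = 1 := by
      rw [ContinuousLinearMap.comp_apply, hPι, hφy]
    have hg3 : 1 ≤ ‖φ ∘L P‖ := by
      have h1 := (φ ∘L P).le_opNorm (ι y)
      rw [hg2, hι, hy, mul_one, norm_one] at h1
      exact h1
    have hmem : ((ι y, φ ∘L P) : X × (X →L[ℝ] ℝ)) ∈ PiSet X :=
      ⟨by change ‖ι y‖ = 1; rw [hι, hy], le_antisymm hg1 hg3, hg2⟩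
    have h2 := le_v S hmem
    rw [show v S = 0 from hS] at h2
    exact h2
  have hq : ∀ T : Y →L[ℝ] Y, qnorm T ≤ qnorm (ι ∘L T ∘L P) := by
    intro T
    refine le_csInf ⟨_, 0, zero_mem_Z, rfl⟩ ?_
    rintro _ ⟨S, hS, rfl⟩
    have h1 : qnorm T ≤ ‖T - P ∘L S ∘L ι‖ := by
      refine csInf_le ⟨0, ?_⟩ ⟨_, hZ S hS, rfl⟩
      rintro _ ⟨S', -, rfl⟩
      exact norm_nonneg _
    refine h1.trans ?_
    have h2 : T - P ∘L S ∘L ι = P ∘L (ι ∘L T ∘L P - S) ∘L ι := by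
      ext y
      simp [hPι]
    rw [h2]
    calc ‖P ∘L (ι ∘L T ∘L P - S) ∘L ι‖ ≤ ‖P‖ * ‖(ι ∘L T ∘L P - S) ∘L ι‖ :=
          ContinuousLinearMap.opNorm_comp_le _ _
      _ ≤ ‖P‖ * (‖ι ∘L T ∘L P - S‖ * ‖ι‖) :=
          mul_le_mul_of_nonneg_left (ContinuousLinearMap.opNorm_comp_le _ _) (norm_nonneg _)
      _ ≤ 1 * (‖ι ∘L T ∘L P - S‖ * 1) := by
          refine mul_le_mul hPn (mul_le_mul_of_nonneg_left hιn (norm_nonneg _))
            (by positivity) zero_le_one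
      _ = ‖ι ∘L T ∘L P - S‖ := by ring
  refine csSup_le_csSup bdd_index ⟨0, le_rfl, fun T => by rw [zero_mul]; exact v_nonneg T⟩ ?_
  rintro k ⟨hk, h⟩
  refine ⟨hk, fun T => ?_⟩
  calc k * qnorm T ≤ k * qnorm (ι ∘L T ∘L P) := mul_le_mul_of_nonneg_left (hq T) hk
    _ ≤ v (ι ∘L T ∘L P) := h _
    _ ≤ v T := hv T

end lemmas

/-- **Q1 is true**: the second numerical index of `Y ⊕₂ W` is at most those of `Y` and `W`. -/
theorem result (Y W : Type*) [NormedAddCommGroup Y] [NormedSpace ℝ Y] [CompleteSpace Y]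
    [Nontrivial Y] [NormedAddCommGroup W] [NormedSpace ℝ W] [CompleteSpace W] [Nontrivial W] :
    secondIndex (WithLp 2 (Y × W)) ≤ min (secondIndex Y) (secondIndex W) := by
  refine le_min ?_ ?_
  · refine index_le
      ((WithLp.prodContinuousLinearEquiv 2 ℝ Y W).symm.toContinuousLinearMap ∘L
        ContinuousLinearMap.inl ℝ Y W)
      (ContinuousLinearMap.fst ℝ Y W ∘L
        (WithLp.prodContinuousLinearEquiv 2 ℝ Y W).toContinuousLinearMap) ?_ ?_ ?_ ?_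
    · intro y
      change ‖WithLp.toLp 2 (y, (0 : W))‖ = ‖y‖
      rw [WithLp.prod_norm_eq_of_L2]
      simp
    · intro y
      rfl
    · intro x
      change ‖x.fst‖ ≤ ‖x‖
      rw [WithLp.prod_norm_eq_of_L2]
      exact Real.le_sqrt_of_sq_le (by nlinarith [sq_nonneg ‖x.snd‖])
    · intro x a ha
      change ‖a‖ = ‖x.fst‖ at ha
      change ‖WithLp.toLp 2 (a, (0 : W)) + (x - WithLp.toLp 2 (x.fst, (0 : W)))‖ = ‖x‖
      rw [WithLp.prod_norm_eq_of_L2, WithLp.prod_norm_eq_of_L2]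
      simp [ha]
  · refine index_le
      ((WithLp.prodContinuousLinearEquiv 2 ℝ Y W).symm.toContinuousLinearMap ∘L
        ContinuousLinearMap.inr ℝ Y W)
      (ContinuousLinearMap.snd ℝ Y W ∘L
        (WithLp.prodContinuousLinearEquiv 2 ℝ Y W).toContinuousLinearMap) ?_ ?_ ?_ ?_
    · intro y
      change ‖WithLp.toLp 2 ((0 : Y), y)‖ = ‖y‖
      rw [WithLp.prod_norm_eq_of_L2]
      simp
    · intro y
      rfl
    · intro x
      change ‖x.snd‖ ≤ ‖x‖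
      rw [WithLp.prod_norm_eq_of_L2]
      exact Real.le_sqrt_of_sq_le (by nlinarith [sq_nonneg ‖x.fst‖])
    · intro x a ha
      change ‖a‖ = ‖x.snd‖ at ha
      change ‖WithLp.toLp 2 ((0 : Y), a) + (x - WithLp.toLp 2 ((0 : Y), x.snd))‖ = ‖x‖
      rw [WithLp.prod_norm_eq_of_L2, WithLp.prod_norm_eq_of_L2]
      simp [ha]

end Pool.Agent.Results.MP_01d095_an.LtwoSum
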